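import Pool.Agent.H295R3.NA.Stmts
import Pool.Agent.Helper923.PNT

/-! Task MT of the project H295-NA: size of the main term. -/

set_option autoImplicit false

namespace Pool.Agent.H589R3.NAMT

open Finset Filter Topology Pool.Agent.H295R3.NA

theorem LL_tendsto : Tendsto (fun x : ℕ => LL x) atTop atTop := by
  unfold LL
  exact Real.tendsto_log_atTop.comp (Real.tendsto_log_atTop.comp tendsto_natCast_atTop_atTop)

/-- the terms -/
noncomputable def g (L : ℝ) (n : ℕ) : ℝ :=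
  if n.Prime then (1 / 2 : ℝ) ^ n * Real.exp (-L / ((n : ℝ) - 1)) else 0

theorem g_nonneg (L : ℝ) (n : ℕ) : 0 ≤ g L n := by
  unfold g
  split_ifs <;> positivity

theorem g_le {L : ℝ} (hL : 0 ≤ L) (n : ℕ) : g L n ≤ (1 / 2 : ℝ) ^ n := by
  unfold g
  split_ifs with h
  · have h2 : (2:ℝ) ≤ n := by exact_mod_cast h.two_le
    have h3 : Real.exp (-L / ((n : ℝ) - 1)) ≤ 1 := by
      rw [Real.exp_le_one_iff]
      apply div_nonpos_of_nonpos_of_nonneg <;> linarith
    calc (1 / 2 : ℝ) ^ n * Real.exp (-L / ((n : ℝ) - 1)) ≤ (1 / 2 : ℝ) ^ n * 1 :=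
          mul_le_mul_of_nonneg_left h3 (by positivity)
      _ = _ := mul_one _
  · positivity

theorem g_summable {L : ℝ} (hL : 0 ≤ L) : Summable (g L) :=
  Summable.of_nonneg_of_le (g_nonneg L) (g_le hL)
    (summable_geometric_of_lt_one (by norm_num) (by norm_num))

theorem MM_eq (x : ℕ) : MM x = ∑' n : ℕ, g (LL x) n := by
  have h := tsum_subtype {p : ℕ | p.Prime} (fun n : ℕ => (1 / 2 : ℝ) ^ n * EE n x)
  refine Eq.trans h ?_
  apply tsum_congr
  intro n
  unfold g
  by_cases hn : n.Prime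
  · rw [Set.indicator_of_mem (show n ∈ {p : ℕ | p.Prime} from hn), if_pos hn]
    rfl
  · rw [Set.indicator_of_notMem (show n ∉ {p : ℕ | p.Prime} from hn), if_neg hn]

theorem exists_prime : ∃ Y0 : ℝ, ∀ y : ℝ, Y0 ≤ y → ∃ l : ℕ, l.Prime ∧ y < l ∧
    (l : ℝ) ≤ 11 / 10 * y := by
  have h1 := Pool.Agent.Helper923.PNT.theta_div_tendsto.eventually
    (Ioo_mem_nhds (by norm_num : (49/50:ℝ) < 1) (by norm_num : (1:ℝ) < 51/50))
  obtain ⟨Y1, hY1⟩ := eventually_atTop.mp h1
  refine ⟨max Y1 1, fun y hy => ?_⟩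
  have hy1 : Y1 ≤ y := (le_max_left _ _).trans hy
  have hy2 : 1 ≤ y := (le_max_right _ _).trans hy
  have a1 := (hY1 y hy1).2
  have a2 := (hY1 (11 / 10 * y) (by linarith)).1
  rw [div_lt_iff₀ (by linarith)] at a1
  rw [lt_div_iff₀ (by linarith)] at a2
  by_contra hno
  push Not at hno
  have h3 : Chebyshev.theta (11 / 10 * y) ≤ Chebyshev.theta y := by
    unfold Chebyshev.theta
    apply Finset.sum_le_sum_of_subset_of_nonneg
    · intro p hp
      rw [Finset.mem_filter, Finset.mem_Ioc] at hp ⊢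
      obtain ⟨⟨hp0, hp1⟩, hp2⟩ := hp
      refine ⟨⟨hp0, ?_⟩, hp2⟩
      have hp3 : (p:ℝ) ≤ 11 / 10 * y := (Nat.le_floor_iff (by linarith)).mp hp1
      apply Nat.le_floor
      by_contra hlt
      push Not at hlt
      exact absurd hp3 (not_le.mpr (hno p hp2 hlt))
    · intro p hp _
      have hp0 : 1 ≤ p := (Finset.mem_Ioc.mp (Finset.mem_filter.mp hp).1).1
      exact Real.log_nonneg (by exact_mod_cast hp0)
  linarith

theorem low : ∃ L0 : ℝ, 1000 ≤ L0 ∧ ∀ L : ℝ, L0 ≤ L →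
    Real.exp (-(17 / 10) * √L) ≤ ∑' n : ℕ, g L n := by
  obtain ⟨Y0, hY0⟩ := exists_prime
  refine ⟨max 1000 ((max Y0 10) ^ 2), le_max_left _ _, fun L hL => ?_⟩
  have hL1 : 1000 ≤ L := (le_max_left _ _).trans hL
  have hL2 : (max Y0 10) ^ 2 ≤ L := (le_max_right _ _).trans hL
  have hl1 := Real.log_two_gt_d9
  have hl2 := Real.log_two_lt_d9
  have hl0 : 0 < Real.log 2 := by linarith
  set y : ℝ := √(L / Real.log 2) with hy
  have hyy : y ^ 2 = L / Real.log 2 := Real.sq_sqrt (by positivity)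
  have hLy : L = y ^ 2 * Real.log 2 := by rw [hyy]; field_simp
  have hm10 : (10:ℝ) ≤ max Y0 10 := le_max_right _ _
  have hymax : max Y0 10 ≤ y := by
    rw [hy]
    apply Real.le_sqrt_of_sq_le
    refine hL2.trans ?_
    rw [le_div_iff₀ hl0]
    nlinarith
  have hy10 : 10 ≤ y := hm10.trans hymax
  obtain ⟨l, hlp, hly, hlu⟩ := hY0 y ((le_max_left _ _).trans hymax)
  have hsq0 : 0 ≤ √L := Real.sqrt_nonneg _
  have hsqL : (√L) ^ 2 = L := Real.sq_sqrt (by linarith)
  have hsq31 : 31 ≤ √L := Real.le_sqrt_of_sq_le (by norm_num; linarith)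
  have hyl : y * Real.log 2 ≤ 8326 / 10000 * √L := by
    apply (sq_le_sq₀ (by positivity) (by positivity)).mp
    rw [mul_pow, mul_pow, hsqL, hyy]
    have e1 : L / Real.log 2 * Real.log 2 ^ 2 = L * Real.log 2 := by field_simp
    rw [e1]
    nlinarith
  set m : ℝ := (l:ℝ) - 1 with hm
  have hm1 : 9 / 10 * y ≤ m := by rw [hm]; linarith
  have hm2 : m ≤ 11 / 10 * y := by rw [hm]; linarith
  have hm0 : 0 < m := by linarith
  have hkey : m + y ^ 2 / m ≤ 20125 / 10000 * y := by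
    have i1 : m + y ^ 2 / m = (m ^ 2 + y ^ 2) / m := by field_simp
    rw [i1, div_le_iff₀ hm0]
    have i2 : (m - y) ^ 2 ≤ 1 / 100 * y ^ 2 := by
      have : |m - y| ≤ 1 / 10 * y := by rw [abs_le]; constructor <;> linarith
      calc (m - y) ^ 2 = |m - y| ^ 2 := (sq_abs _).symm
        _ ≤ (1 / 10 * y) ^ 2 := pow_le_pow_left₀ (abs_nonneg _) this 2
        _ = _ := by ring
    nlinarith
  have hexp : (l:ℝ) * Real.log 2 + L / m ≤ 17 / 10 * √L := by
    have i1 : (l:ℝ) * Real.log 2 + L / m = Real.log 2 * (1 + (m + y ^ 2 / m)) := by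
      rw [hLy, hm]; ring
    rw [i1]
    calc Real.log 2 * (1 + (m + y ^ 2 / m)) ≤ Real.log 2 * (1 + 20125 / 10000 * y) :=
          mul_le_mul_of_nonneg_left (by linarith) hl0.le
      _ = Real.log 2 + 20125 / 10000 * (y * Real.log 2) := by ring
      _ ≤ Real.log 2 + 20125 / 10000 * (8326 / 10000 * √L) := by linarith
      _ ≤ 17 / 10 * √L := by linarith
  have hterm : Real.exp (-(17 / 10) * √L) ≤ g L l := by
    unfold g
    rw [if_pos hlp]
    have i1 : (1 / 2 : ℝ) ^ l = Real.exp (-((l:ℝ) * Real.log 2)) := by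
      rw [Real.exp_neg, Real.exp_nat_mul, Real.exp_log (by norm_num), one_div, inv_pow]
    rw [i1, ← Real.exp_add]
    apply Real.exp_le_exp.mpr
    have i2 : -L / ((l:ℝ) - 1) = -(L / m) := by rw [hm]; ring
    rw [i2]
    linarith
  exact hterm.trans ((g_summable (by linarith)).le_tsum l (fun _ _ => g_nonneg _ _))

/-- terms outside of the window -/
theorem far {L : ℝ} (hL : 1000 ≤ L) (n : ℕ) (hn : n.Prime)
    (h : (n:ℝ) ≤ √L / 8 ∨ 10 * √L < n) :
    g L n ≤ Real.exp (-3 * √L) * (3 / 4) ^ n := by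
  have hsq0 : 0 < √L := Real.sqrt_pos.mpr (by linarith)
  have hsqL : √L * √L = L := Real.mul_self_sqrt (by linarith)
  have h2 : (2:ℝ) ≤ n := by exact_mod_cast hn.two_le
  rcases h with h | h
  · unfold g
    rw [if_pos hn, mul_comm]
    apply mul_le_mul _ _ (by positivity) (Real.exp_pos _).le
    · apply Real.exp_le_exp.mpr
      have i1 : 8 * √L ≤ L / ((n:ℝ) - 1) := by
        rw [le_div_iff₀ (by linarith)]
        nlinarith
      have i2 : -L / ((n:ℝ) - 1) = -(L / ((n:ℝ) - 1)) := by ring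
      rw [i2]
      linarith
    · exact pow_le_pow_left₀ (by norm_num) (by norm_num) n
  · refine (g_le (by linarith) n).trans ?_
    have i1 : (1 / 2 : ℝ) ^ n = (2 / 3) ^ n * (3 / 4) ^ n := by
      rw [← mul_pow]; norm_num
    rw [i1]
    apply mul_le_mul_of_nonneg_right _ (by positivity)
    calc (2 / 3 : ℝ) ^ n ≤ (Real.exp (-(3 / 10))) ^ n := by
          apply pow_le_pow_left₀ (by norm_num)
          have := Real.add_one_le_exp (-(3 / 10 : ℝ))
          linarith
      _ = Real.exp (-(3 / 10) * n) := by rw [← Real.exp_nat_mul]; congr 1; ring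
      _ ≤ Real.exp (-3 * √L) := Real.exp_le_exp.mpr (by linarith)

theorem upper {L : ℝ} (hL : 1000 ≤ L) : ∑' n : ℕ, g L n ≤
    (∑ l ∈ (Icc 1 ⌊10 * √L⌋₊).filter (fun l : ℕ => l.Prime ∧ √L / 8 < (l : ℝ)), g L l) +
      4 * Real.exp (-3 * √L) := by
  classical
  set W := (Icc 1 ⌊10 * √L⌋₊).filter (fun l : ℕ => l.Prime ∧ √L / 8 < (l : ℝ)) with hW
  have hs0 : Summable (fun n : ℕ => (3 / 4 : ℝ) ^ n) :=
    summable_geometric_of_lt_one (by norm_num) (by norm_num)
  have hs1 : Summable (fun n : ℕ => if n ∈ W then g L n else 0) :=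
    summable_of_ne_finset_zero (s := W) (fun n hn => if_neg hn)
  have hs2 : Summable (fun n : ℕ => Real.exp (-3 * √L) * (3 / 4 : ℝ) ^ n) := hs0.mul_left _
  have hle : ∀ n : ℕ, g L n ≤ (if n ∈ W then g L n else 0) +
      Real.exp (-3 * √L) * (3 / 4 : ℝ) ^ n := by
    intro n
    have hpos : 0 ≤ Real.exp (-3 * √L) * (3 / 4 : ℝ) ^ n := by positivity
    by_cases hn : n ∈ W
    · rw [if_pos hn]; linarith
    · rw [if_neg hn, zero_add]
      by_cases hp : n.Prime
      · apply far hL n hp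
        by_contra hc
        push Not at hc
        apply hn
        rw [hW, Finset.mem_filter, Finset.mem_Icc]
        refine ⟨⟨hp.one_lt.le, Nat.le_floor hc.2⟩, hp, hc.1⟩
      · unfold g
        rw [if_neg hp]
        exact hpos
  have h1 := (g_summable (by linarith : (0:ℝ) ≤ L)).tsum_le_tsum hle (hs1.add hs2)
  rw [hs1.tsum_add hs2, tsum_mul_left,
    tsum_geometric_of_lt_one (by norm_num) (by norm_num)] at h1
  have h2 : ∑' n : ℕ, (if n ∈ W then g L n else 0) = ∑ l ∈ W, g L l := by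
    rw [tsum_eq_sum (s := W) (fun n hn => if_neg hn)]
    exact Finset.sum_congr rfl fun n hn => if_pos hn
  rw [h2] at h1
  refine h1.trans (le_of_eq ?_)
  norm_num
  ring

theorem taskMT : TaskMT := by
  obtain ⟨L0, hL0, hlow⟩ := low
  refine ⟨?_, ?_, ?_⟩
  · obtain ⟨x0, hx0⟩ := eventually_atTop.mp (LL_tendsto.eventually_ge_atTop L0)
    refine ⟨x0, fun x hx => ?_⟩
    rw [MM_eq]
    exact hlow _ (hx0 x hx)
  · exact (summable_geometric_of_lt_one (r := (1 / 2 : ℝ)) (by norm_num)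
      (by norm_num)).comp_injective Subtype.val_injective
  · intro ε hε
    have ht : Tendsto (fun x : ℕ => √(LL x)) atTop atTop :=
      Real.tendsto_sqrt_atTop.comp LL_tendsto
    have h1 := LL_tendsto.eventually_ge_atTop L0
    have h2 := ht.eventually_ge_atTop (4 / ε)
    obtain ⟨x0, hx0⟩ := eventually_atTop.mp (h1.and h2)
    refine ⟨x0, fun x hx => ?_⟩
    obtain ⟨k1, k2⟩ := hx0 x hx
    have k3 := hlow _ k1
    have k4 := upper (hL0.trans k1)
    set L := LL x with hL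
    have hsq : 0 ≤ √L := Real.sqrt_nonneg _
    have e1 : ∑ l ∈ (Icc 1 ⌊10 * √L⌋₊).filter (fun l : ℕ => l.Prime ∧ √L / 8 < (l : ℝ)),
        (1 / 2 : ℝ) ^ l * EE l x = ∑ l ∈ (Icc 1 ⌊10 * √L⌋₊).filter
          (fun l : ℕ => l.Prime ∧ √L / 8 < (l : ℝ)), g L l := by
      apply Finset.sum_congr rfl
      intro l hl
      unfold g
      rw [if_pos (Finset.mem_filter.mp hl).2.1]
      rfl
    rw [e1, MM_eq]
    have e2 : 4 * Real.exp (-3 * √L) ≤ ε * Real.exp (-(17 / 10) * √L) := by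
      have i1 : Real.exp (-3 * √L) = Real.exp (-(13 / 10) * √L) * Real.exp (-(17 / 10) * √L) := by
        rw [← Real.exp_add]; congr 1; ring
      have i2 : Real.exp (-(13 / 10) * √L) ≤ ε / 4 := by
        have j1 : 4 / ε ≤ Real.exp (13 / 10 * √L) := by
          have := Real.add_one_le_exp (13 / 10 * √L)
          linarith
        have j2 : -(13 / 10) * √L = -(13 / 10 * √L) := by ring
        rw [j2, Real.exp_neg]
        have j3 : 0 < 4 / ε := by positivity
        calc (Real.exp (13 / 10 * √L))⁻¹ ≤ (4 / ε)⁻¹ := inv_anti₀ j3 j1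
          _ = ε / 4 := by rw [inv_div]
      rw [i1]
      have i3 := mul_le_mul_of_nonneg_right i2 (Real.exp_pos (-(17 / 10) * √L)).le
      linarith
    have e3 : ε * Real.exp (-(17 / 10) * √L) ≤ ε * ∑' n : ℕ, g L n :=
      mul_le_mul_of_nonneg_left k3 hε.le
    linarith

end Pool.Agent.H589R3.NAMT
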